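import Pool.Agent.helper20.VVO.Spec

/-!
# vvo:NCL: nondeterministic circuits
-/

set_option autoImplicit false

open Filter Topology

namespace Pool.Agent.VVO

open Pool.Agent.PB Pool.Agent.ISO Pool.Agent.ISA

theorem NCL_sub (hSEL : ISO.SEL_stmt) {n N s : ℕ} (g : BF N) (e : Fin N → Fin n) (h : Size std g s) :
    Size std (fun Z : Fin n → Bool => g (fun i => Z (e i))) (s + N) :=
  hSEL n N s g (fun i Z => Z (e i)) h (fun i => Or.inr ⟨e i, rfl⟩)

/-- the variables of the circuit -/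
def NCLe {n v V : ℕ} (c : Fin v → Fin V) : Fin (n + v) → Fin (n + V) :=
  Fin.append (fun i => Fin.castAdd V i) (fun j => Fin.natAdd n (c j))

theorem NCL_e {n v V : ℕ} (c : Fin v → Fin V) (x : Fin n → Bool) (y : Fin V → Bool) :
    (fun i => Fin.append x y (NCLe (n := n) c i)) = Fin.append x (fun j => y (c j)) := by
  funext i
  refine Fin.addCases (fun i => ?_) (fun j => ?_) i
  · rw [NCLe, Fin.append_left, Fin.append_left, Fin.append_left]
  · rw [NCLe, Fin.append_right, Fin.append_right, Fin.append_right]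

theorem NCL_1 (n s : ℕ) (f : BF n) (h : Size std f s) : NSize f s := by
  refine ⟨0, Nat.zero_le _, f, h, fun x => ?_⟩
  have h1 : ∀ y : Fin 0 → Bool, Fin.append x y = x := by
    intro y
    rw [Fin.append_right_nil x y rfl]
    rfl
  constructor
  · intro hx
    exact ⟨fun i => i.elim0, by rw [h1]; exact hx⟩
  · rintro ⟨y, hy⟩
    rw [h1] at hy
    exact hy

theorem NCL_3 (hCNT : ISO.CNT_stmt) (hSEL : ISO.SEL_stmt) (hCIR : ISO.CIR_stmt) (n s K τ : ℕ) (L : Fin K → BF n) (F : BF n)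
    (hL : ∀ t, NSize (L t) s) (hF : ∀ x, F x = true ↔ τ ≤ (Finset.univ.filter fun t => L t x = true).card) :
    NSize F (K * (2 * s + n + 1) + 10 * (K + 1) ^ 2) := by
  classical
  choose v hv g hg hLg using hL
  obtain ⟨G, hG⟩ : ∃ G : Fin K → BF (n + K * s), G = fun t Z =>
      g t (fun i => Z (NCLe (fun j => finProdFinEquiv (t, Fin.castLE (hv t) j)) i)) := ⟨_, rfl⟩
  have hGs : ∀ t, Size std (G t) (2 * s + n) := by
    intro t
    rw [hG]
    refine hCIR.2.2.1 _ _ _ _ (NCL_sub hSEL (g t) _ (hg t)) ?_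
    have := hv t
    omega
  have hGv : ∀ t (x : Fin n → Bool) (y : Fin (K * s) → Bool), G t (Fin.append x y) =
      g t (Fin.append x (fun j => y (finProdFinEquiv (t, Fin.castLE (hv t) j)))) := by
    intro t x y
    rw [hG]
    show g t (fun i => Fin.append x y (NCLe (fun j => finProdFinEquiv (t, Fin.castLE (hv t) j)) i)) = _
    rw [NCL_e]
  have hsz := hCNT (Fin K) (n + K * s) (2 * s + n) G (fun Z => decide (τ ≤ (Finset.univ.filter fun t => G t Z = true).card))
    (fun c => τ ≤ c) hGs (fun Z => by rw [decide_eq_true_iff])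
  rw [Fintype.card_fin] at hsz
  refine ⟨K * s, ?_, fun Z => decide (τ ≤ (Finset.univ.filter fun t => G t Z = true).card), hCIR.2.2.1 _ _ _ _ hsz ?_, fun x => ?_⟩
  · have h1 : K * s ≤ K * (2 * s + n + 1) := Nat.mul_le_mul_left K (by omega)
    omega
  · have h1 : K * (2 * s + n) ≤ K * (2 * s + n + 1) := Nat.mul_le_mul_left K (by omega)
    omega
  · rw [hF]
    constructor
    · intro h
      have h1 : ∀ t, ∃ y : Fin (v t) → Bool, L t x = true → g t (Fin.append x y) = true := by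
        intro t
        by_cases ht : L t x = true
        · obtain ⟨y, hy⟩ := (hLg t x).1 ht
          exact ⟨y, fun _ => hy⟩
        · exact ⟨fun _ => false, fun h => absurd h ht⟩
      choose yy hyy using h1
      refine ⟨fun i => if h : ((finProdFinEquiv.symm i).2 : ℕ) < v (finProdFinEquiv.symm i).1 then
        yy (finProdFinEquiv.symm i).1 ⟨(finProdFinEquiv.symm i).2, h⟩ else false, ?_⟩
      rw [decide_eq_true_iff]
      refine h.trans (Finset.card_le_card fun t ht => ?_)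
      rw [Finset.mem_filter] at ht ⊢
      refine ⟨Finset.mem_univ _, ?_⟩
      rw [hGv]
      have h2 : (fun j : Fin (v t) => (fun i : Fin (K * s) => if h : ((finProdFinEquiv.symm i).2 : ℕ) < v (finProdFinEquiv.symm i).1 then
          yy (finProdFinEquiv.symm i).1 ⟨(finProdFinEquiv.symm i).2, h⟩ else false) (finProdFinEquiv (t, Fin.castLE (hv t) j))) = yy t := by
        funext j
        have h3 : finProdFinEquiv.symm (finProdFinEquiv (t, Fin.castLE (hv t) j)) = (t, Fin.castLE (hv t) j) := Equiv.symm_apply_apply _ _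
        show (if h : ((finProdFinEquiv.symm (finProdFinEquiv (t, Fin.castLE (hv t) j))).2 : ℕ) <
            v (finProdFinEquiv.symm (finProdFinEquiv (t, Fin.castLE (hv t) j))).1 then
          yy (finProdFinEquiv.symm (finProdFinEquiv (t, Fin.castLE (hv t) j))).1
            ⟨(finProdFinEquiv.symm (finProdFinEquiv (t, Fin.castLE (hv t) j))).2, h⟩ else false) = yy t j
        rw [h3]
        show (if h : (j : ℕ) < v t then yy t ⟨j, h⟩ else false) = yy t j
        rw [dif_pos j.2]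
      rw [h2]
      exact hyy t ht.2
    · rintro ⟨y, hy⟩
      rw [decide_eq_true_iff] at hy
      refine hy.trans (Finset.card_le_card fun t ht => ?_)
      rw [Finset.mem_filter] at ht ⊢
      refine ⟨Finset.mem_univ _, ?_⟩
      have h1 := ht.2
      rw [hGv] at h1
      exact (hLg t x).2 ⟨_, h1⟩

theorem NCL_4 (hSEL : ISO.SEL_stmt) (hCIR : ISO.CIR_stmt) (n s : ℕ) (f g F : BF n) (hf : NSize f s) (hg : NSize g s)
    (hF : ∀ x, F x = true ↔ f x = true ∧ g x = true) : NSize F (5 * (s + n + 5)) := by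
  obtain ⟨v₁, hv₁, f', hf', hff⟩ := hf
  obtain ⟨v₂, hv₂, g', hg', hgg⟩ := hg
  have h1 := NCL_sub hSEL f' (NCLe (n := n) (fun j : Fin v₁ => Fin.castAdd v₂ j)) hf'
  have h2 := NCL_sub hSEL g' (NCLe (n := n) (fun j : Fin v₂ => Fin.natAdd v₁ j)) hg'
  have h3 := (hCIR.2.2.2.2.1 _ _ _ _ _ h1 h2).1
  refine ⟨v₁ + v₂, by omega, _, hCIR.2.2.1 _ _ _ _ h3 (by omega), fun x => ?_⟩
  rw [hF, hff, hgg]
  constructor
  · rintro ⟨⟨y₁, hy₁⟩, ⟨y₂, hy₂⟩⟩
    refine ⟨Fin.append y₁ y₂, ?_⟩
    show (f' (fun i => Fin.append x (Fin.append y₁ y₂) (NCLe (n := n) (fun j : Fin v₁ => Fin.castAdd v₂ j) i)) &&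
      g' (fun i => Fin.append x (Fin.append y₁ y₂) (NCLe (n := n) (fun j : Fin v₂ => Fin.natAdd v₁ j) i))) = true
    rw [NCL_e, NCL_e, Bool.and_eq_true]
    have e1 : (fun j => Fin.append y₁ y₂ (Fin.castAdd v₂ j)) = y₁ := by
      funext j
      rw [Fin.append_left]
    have e2 : (fun j => Fin.append y₁ y₂ (Fin.natAdd v₁ j)) = y₂ := by
      funext j
      rw [Fin.append_right]
    rw [e1, e2]
    exact ⟨hy₁, hy₂⟩
  · rintro ⟨y, hy⟩
    have hy' : (f' (fun i => Fin.append x y (NCLe (n := n) (fun j : Fin v₁ => Fin.castAdd v₂ j) i)) &&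
      g' (fun i => Fin.append x y (NCLe (n := n) (fun j : Fin v₂ => Fin.natAdd v₁ j) i))) = true := hy
    rw [NCL_e, NCL_e, Bool.and_eq_true] at hy'
    exact ⟨⟨_, hy'.1⟩, ⟨_, hy'.2⟩⟩

theorem NCL (hCIR : ISO.CIR_stmt) (hCNT : ISO.CNT_stmt) (hSEL : ISO.SEL_stmt) : NCL_stmt := by
  refine ⟨NCL_1, ?_, NCL_3 hCNT hSEL hCIR, NCL_4 hSEL hCIR⟩
  rintro n s t f ⟨v, hv, g, hg, h⟩ hst
  exact ⟨v, hv.trans hst, g, hCIR.2.2.1 _ _ _ _ hg hst, h⟩

end Pool.Agent.VVO
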