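import Pool.Agent.helper20.VVO.Spec

/-!
# vvo:NUM: the numbers
-/

set_option autoImplicit false

open Filter Topology

namespace Pool.Agent.VVO

open Pool.Agent.PB Pool.Agent.ISO Pool.Agent.ISA

theorem NUM_one (r : ℕ) (hr : 1 ≤ r) : Real.log ((r : ℝ) + 1) - Real.log r ≤ 1 / (r : ℝ) := by
  have h0 : (0 : ℝ) < r := by exact_mod_cast hr
  have h1 : Real.log ((r : ℝ) + 1) - Real.log r = Real.log (1 + 1 / r) := by
    rw [← Real.log_div (by positivity) (by positivity)]
    congr 1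
    field_simp
  rw [h1]
  have h2 := Real.log_le_sub_one_of_pos (x := 1 + 1 / (r : ℝ)) (by positivity)
  linarith

theorem NUM_sum (l k : ℕ) (hl : 1 ≤ l) (hlk : l ≤ k) :
    Real.log ((k : ℝ) + 1) - Real.log l ≤ ∑ r ∈ Finset.Icc l k, 1 / (r : ℝ) := by
  induction k, hlk using Nat.le_induction with
  | base =>
    rw [Finset.Icc_self, Finset.sum_singleton]
    exact NUM_one l hl
  | succ k hk ih =>
    rw [Finset.sum_Icc_succ_top (by omega)]
    have h1 := NUM_one (k + 1) (by omega)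
    push_cast at h1 ⊢
    linarith

theorem NUM : NUM_stmt := by
  intro ε₀ hε₀
  obtain ⟨ε, hε⟩ : ∃ ε : ℝ, ε = min ε₀ 1 := ⟨_, rfl⟩
  have hε0 : 0 < ε := by rw [hε]; exact lt_min hε₀ one_pos
  have hεε : ε ≤ ε₀ := by rw [hε]; exact min_le_left _ _
  obtain ⟨ρ', hρ'⟩ : ∃ ρ' : ℕ, Real.exp (2 / ε) ≤ ρ' := exists_nat_ge _
  have hρ1 : (1 : ℝ) ≤ ρ' := (Real.one_le_exp (by positivity)).trans hρ'
  have hρ0 : (0 : ℝ) < ρ' := by linarith
  have hlog : 2 / ε ≤ Real.log ρ' := by
    rw [Real.le_log_iff_exp_le hρ0]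
    exact hρ'
  have hlog0 : 0 < Real.log ρ' := lt_of_lt_of_le (by positivity) hlog
  obtain ⟨L, hL⟩ : ∃ L : ℝ, L = Real.log ρ' := ⟨_, rfl⟩
  rw [← hL] at hlog hlog0
  obtain ⟨M0, hM0⟩ : ∃ M0 : ℕ, Real.exp (1 + L + 2 / ε * L) ≤ M0 := exists_nat_ge _
  obtain ⟨ρ₁, hρ₁⟩ : ∃ ρ₁ : ℕ, (M0 : ℝ) / Real.log 2 ≤ ρ₁ := exists_nat_ge _
  have hl2 : 0 < Real.log 2 := Real.log_pos (by norm_num)
  refine ⟨ρ₁ + ρ', fun m hm => ?_⟩
  have hmr : (2 : ℝ) ≤ m := by exact_mod_cast hm
  have hlm : Real.log 2 ≤ Real.log m := Real.log_le_log (by norm_num) hmr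
  have hlm0 : 0 < Real.log m := by linarith
  rcases lt_or_ge m M0 with hc | hc
  · -- small `m`
    refine ⟨m, 1, le_rfl, by omega, by rw [Nat.choose_one_right], ?_, ?_⟩
    · have h1 : (m : ℝ) ≤ M0 := by exact_mod_cast hc.le
      rw [div_le_iff₀ hl2] at hρ₁
      push_cast
      have h2 : (ρ₁ : ℝ) * Real.log 2 ≤ ρ₁ * Real.log m := mul_le_mul_of_nonneg_left hlm (Nat.cast_nonneg _)
      have h3 : 0 ≤ (ρ' : ℝ) * Real.log m := by positivity
      nlinarith
    · have h1 := NUM_sum 1 m le_rfl (by omega)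
      have h2 : Real.log m ≤ Real.log ((m : ℝ) + 1) := Real.log_le_log (by linarith) (by linarith)
      simp only [Nat.cast_one, Real.log_one, sub_zero] at h1 ⊢
      nlinarith
  · -- large `m`
    have hB : 1 + L + 2 / ε * L ≤ Real.log m := by
      rw [Real.le_log_iff_exp_le (by linarith)]
      exact hM0.trans (by exact_mod_cast hc)
    obtain ⟨l, hl⟩ : ∃ l : ℕ, l = ⌊Real.log m / (1 + L)⌋₊ := ⟨_, rfl⟩
    have hl1 : (l : ℝ) ≤ Real.log m / (1 + L) := by
      rw [hl]
      exact Nat.floor_le (by positivity)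
    have hl2' : Real.log m / (1 + L) < l + 1 := by
      rw [hl]
      exact Nat.lt_floor_add_one _
    have hl0 : 1 ≤ l := by
      rw [hl]
      refine Nat.le_floor ?_
      rw [Nat.cast_one, le_div_iff₀ (by positivity)]
      have : 0 < 2 / ε * L := by positivity
      linarith
    have hlr : (1 : ℝ) ≤ l := by exact_mod_cast hl0
    have hρn : 1 ≤ ρ' := by exact_mod_cast hρ1
    have hll : (l : ℝ) * (1 + L) ≤ Real.log m := by
      rwa [le_div_iff₀ (by positivity)] at hl1
    refine ⟨ρ' * l, l, hl0, Nat.le_mul_of_pos_left l hρn, ?_, ?_, ?_⟩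
    · have h1 : (((ρ' * l).choose l : ℕ) : ℝ) ≤ ((ρ' * l : ℕ) : ℝ) ^ l / (l.factorial : ℝ) := Nat.choose_le_pow_div l (ρ' * l)
      have h2 : (l : ℝ) ^ l / (l.factorial : ℝ) ≤ Real.exp l := Real.pow_div_factorial_le_exp (l : ℝ) (Nat.cast_nonneg _) l
      have h3 : ((ρ' * l : ℕ) : ℝ) ^ l / (l.factorial : ℝ) = (ρ' : ℝ) ^ l * ((l : ℝ) ^ l / (l.factorial : ℝ)) := by
        push_cast
        rw [mul_pow]
        ring
      have h4 : (ρ' : ℝ) ^ l = Real.exp (l * L) := by
        rw [Real.exp_nat_mul, hL, Real.exp_log hρ0]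
      have h5 : (((ρ' * l).choose l : ℕ) : ℝ) ≤ m := by
        calc (((ρ' * l).choose l : ℕ) : ℝ) ≤ (ρ' : ℝ) ^ l * ((l : ℝ) ^ l / (l.factorial : ℝ)) := h1.trans (le_of_eq h3)
          _ ≤ Real.exp (l * L) * Real.exp l := by
              rw [h4]
              exact mul_le_mul_of_nonneg_left h2 (Real.exp_pos _).le
          _ = Real.exp (l * (1 + L)) := by
              rw [← Real.exp_add]
              congr 1
              ring
          _ ≤ Real.exp (Real.log m) := Real.exp_le_exp.2 hll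
          _ = m := Real.exp_log (by linarith)
      exact_mod_cast h5
    · push_cast
      have h1 : (l : ℝ) ≤ Real.log m := by nlinarith
      have h2 : (ρ' : ℝ) * l ≤ ρ' * Real.log m := mul_le_mul_of_nonneg_left h1 hρ0.le
      have h3 : 0 ≤ (ρ₁ : ℝ) * Real.log m := by positivity
      linarith
    · have h1 := NUM_sum l (ρ' * l) hl0 (Nat.le_mul_of_pos_left l hρn)
      have h2 : L ≤ Real.log (((ρ' * l : ℕ) : ℝ) + 1) - Real.log l := by
        have h3 : Real.log ((ρ' * l : ℕ) : ℝ) = L + Real.log l := by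
          push_cast
          rw [Real.log_mul (by positivity) (by positivity), hL]
        have h4 : Real.log ((ρ' * l : ℕ) : ℝ) ≤ Real.log (((ρ' * l : ℕ) : ℝ) + 1) :=
          Real.log_le_log (by push_cast; positivity) (by linarith)
        linarith
      have h3 : ∑ r ∈ Finset.Icc l (ρ' * l), (l : ℝ) / (r : ℝ) = l * ∑ r ∈ Finset.Icc l (ρ' * l), 1 / (r : ℝ) := by
        rw [Finset.mul_sum]
        refine Finset.sum_congr rfl fun r _ => ?_
        ring
      rw [h3]
      have h4 : (l : ℝ) * L ≤ l * ∑ r ∈ Finset.Icc l (ρ' * l), 1 / (r : ℝ) := mul_le_mul_of_nonneg_left (h2.trans h1) (Nat.cast_nonneg _)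
      refine le_trans ?_ h4
      -- `l L ≥ (log m / (1 + L) - 1) L`
      have h5 : (Real.log m / (1 + L) - 1) * L ≤ l * L := mul_le_mul_of_nonneg_right (by linarith) hlog0.le
      refine le_trans ?_ h5
      have h6 : (Real.log m / (1 + L) - 1) * L = Real.log m - Real.log m / (1 + L) - L := by
        field_simp
        ring
      rw [h6]
      have h7 : Real.log m / (1 + L) ≤ ε / 2 * Real.log m := by
        rw [div_le_iff₀ (by positivity)]
        have h8 : 2 ≤ ε * L := by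
          rw [div_le_iff₀ hε0] at hlog
          linarith
        have h9 : 1 ≤ ε / 2 * (1 + L) := by linarith
        nlinarith
      have h8 : L ≤ ε / 2 * Real.log m := by
        have h9 : 2 / ε * L ≤ Real.log m := by linarith
        have h10 : ε / 2 * (2 / ε * L) ≤ ε / 2 * Real.log m := mul_le_mul_of_nonneg_left h9 (by positivity)
        have h11 : ε / 2 * (2 / ε * L) = L := by field_simp
        linarith
      nlinarith

end Pool.Agent.VVO
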